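import Pool.Agent.H82.BO.Targets
import Pool.Agent.H39.FLC.PRC

/-!
MP_c62aed_lc, cutting planes for random CNFs, the optimal exponent: row PRG (helper35). For good `y`
every line has a small cover. Model: `Pool/Agent/H39/FLC/PRC.lean` (helper39).
-/

set_option autoImplicit false

namespace Pool.Agent.H35.BO

open Finset Pool.Agent.H82.BO
open Pool.Agent.H15.FLC (Half Violates InsC CovC KerC ErrC BRC ERC KRC BadC)
open Pool.Agent.H39.FLC (prc_mono prc_step)

theorem pf_PRG : T_PRG := by
  intro n k l M μ F r w q t s f g hr y hR hF i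
  classical
  induction i using Nat.strong_induction_on with
  | _ i ih =>
    intro hi
    obtain ⟨P, T, hP, hT, hlt, himp⟩ := hR.2 i hi
    choose TQ hTQ1 hTQ2 hTQ3 using fun (j : ℕ) (hj : j ∈ P) => ih j (hlt j hj) ((hlt j hj).trans hi)
    let S1 : Finset (Fin M) := P.attach.biUnion fun p => TQ p.1 p.2
    let S2 : Finset (Fin M) := (T.filter fun c => Violates (F.2 c) y).image Prod.fst
    have hS : ∀ c ∈ S1 ∪ S2, c ∈ RG F.2 y := by
      intro c hc
      rcases Finset.mem_union.1 hc with h | h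
      · obtain ⟨p, -, hp⟩ := Finset.mem_biUnion.1 h
        exact hTQ1 p.1 p.2 c hp
      · obtain ⟨b, hb, rfl⟩ := Finset.mem_image.1 h
        exact ⟨b.2, (Finset.mem_filter.1 hb).2⟩
    have hc1 : S1.card ≤ t * q := by
      have h1 := Finset.card_biUnion_le_card_mul P.attach (fun p => TQ p.1 p.2) q
        (fun p _ => hTQ2 p.1 p.2)
      rw [Finset.card_attach] at h1
      exact h1.trans (Nat.mul_le_mul_right q hP)
    have hc2 : S2.card ≤ t := Finset.card_image_le.trans ((Finset.card_filter_le _ _).trans hT)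
    have hcard : (S1 ∪ S2).card ≤ r := by
      have h1 := Finset.card_union_le S1 S2
      omega
    refine prc_step F.1 r w q f _ i (-(g i y)) (hF i hi) (S1 ∪ S2) hS hcard ?_
    intro x hx
    rw [BRC, mem_filter] at hx
    obtain ⟨_, hx1, hx2⟩ := hx
    have h1 : ¬ ((∀ j ∈ P, 0 ≤ f j x + g j y) ∧ ∀ c ∈ T, ¬ False2 F c x y) := by
      intro h
      have h2 := himp x h.1 h.2
      linarith
    rw [not_and_or] at h1
    rcases h1 with h1 | h1
    · push Not at h1
      obtain ⟨j, hj, hxj⟩ := h1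
      obtain ⟨c, hc, hv⟩ := hTQ3 j hj x (by
        rw [BRC, mem_filter]
        refine ⟨mem_univ _, ?_, by linarith⟩
        intro hh
        exact hx1 (prc_mono _ r w f (Nat.succ_le_of_lt (hlt j hj)) hh))
      exact ⟨c, Finset.mem_union_left _ (Finset.mem_biUnion.2
        ⟨⟨j, hj⟩, Finset.mem_attach _ _, hc⟩), hv⟩
    · push Not at h1
      obtain ⟨c, hc, hf⟩ := h1
      exact ⟨c.1, Finset.mem_union_right _ (Finset.mem_image.2
        ⟨c, Finset.mem_filter.2 ⟨hc, hf.2⟩, rfl⟩), hf.1⟩

end Pool.Agent.H35.BO
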